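import Pool.Agent.R922.WN.Main

/-!
# MP_6f0508_an: upper bounds for the normal path constants `w n`
-/

open Set
open scoped Matrix.Norms.L2Operator ENNReal

namespace Pool.Agent.Results.MP_6f0508_an.UpperBound

/-- `γ` is a normal path from `A` to `B`: continuous on `[0,1]`, with normal values,
starting at `A` and ending at `B`.  Matrices carry the operator norm
(`Matrix.Norms.L2Operator`). -/
structure IsNormalPath {n : ℕ} (A B : Matrix (Fin n) (Fin n) ℂ)
    (γ : ℝ → Matrix (Fin n) (Fin n) ℂ) : Prop where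
  cont : ContinuousOn γ (Icc 0 1)
  start : γ 0 = A
  finish : γ 1 = B
  normal : ∀ t ∈ Icc (0:ℝ) 1, IsStarNormal (γ t)

/-- The length of a path on `[0,1]` in the operator norm metric. -/
noncomputable def len {n : ℕ} (γ : ℝ → Matrix (Fin n) (Fin n) ℂ) : ℝ≥0∞ :=
  eVariationOn γ (Icc 0 1)

/-- The infimum of the lengths of the normal paths from `A` to `B`. -/
noncomputable def L {n : ℕ} (A B : Matrix (Fin n) (Fin n) ℂ) : ℝ≥0∞ :=
  ⨅ (γ : ℝ → Matrix (Fin n) (Fin n) ℂ) (_ : IsNormalPath A B γ), len γ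

/-- The constant `w n`. -/
noncomputable def w (n : ℕ) : ℝ≥0∞ :=
  ⨆ (A : Matrix (Fin n) (Fin n) ℂ) (B : Matrix (Fin n) (Fin n) ℂ) (_ : IsStarNormal A)
    (_ : IsStarNormal B) (_ : ‖A - B‖ = 1), L A B

open Pool.Agent.R922.WN

lemma L_le {n : ℕ} {A B : Matrix (Fin n) (Fin n) ℂ} {T : ℝ} (h : Joined' A B T) :
    L A B ≤ ENNReal.ofReal T := by
  have hT := h.1
  obtain ⟨γ, h0, h1, h2, h3⟩ := h.lip
  have hlip : LipschitzOnWith (Real.toNNReal T) γ (Icc 0 1) := by
    apply LipschitzOnWith.of_dist_le_mul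
    intro s hs t ht
    rw [dist_eq_norm, Real.coe_toNNReal _ hT, Real.dist_eq]
    have := h2 t ht s hs
    linarith
  have hp : IsNormalPath A B γ := ⟨hlip.continuousOn, h0, h1, h3⟩
  refine (iInf₂_le γ hp).trans ?_
  unfold len
  have e1 := hlip.comp_eVariationOn_le (g := (id : ℝ → ℝ)) (s := Icc 0 1) (fun x hx => hx)
  rw [Function.comp_id] at e1
  refine e1.trans ?_
  have e2 : eVariationOn (id : ℝ → ℝ) (Icc 0 1) ≤ ENNReal.ofReal (1 - 0) := by
    have := (monotone_id.monotoneOn (Icc (0:ℝ) 1)).eVariationOn_le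
      (a := (0:ℝ)) (b := 1) (by simp) (by simp)
    simpa using this
  calc (Real.toNNReal T : ℝ≥0∞) * eVariationOn (id : ℝ → ℝ) (Icc 0 1)
      ≤ (Real.toNNReal T : ℝ≥0∞) * ENNReal.ofReal (1 - 0) := by gcongr
    _ = ENNReal.ofReal T := by simp [ENNReal.ofReal]

lemma spec_fin {n : ℕ} (A : Matrix (Fin n) (Fin n) ℂ) :
    ∃ h : (spectrum ℂ A).Finite, h.toFinset.card ≤ n := by
  classical
  have hsub : spectrum ℂ A ⊆ (A.charpoly.roots.toFinset : Set ℂ) := by
    intro z hz
    rw [Finset.mem_coe, Multiset.mem_toFinset, Polynomial.mem_roots (A.charpoly_monic.ne_zero)]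
    exact (Matrix.mem_spectrum_iff_isRoot_charpoly).1 hz
  have hfin : (spectrum ℂ A).Finite := (Finset.finite_toSet _).subset hsub
  refine ⟨hfin, ?_⟩
  have h1 : hfin.toFinset ⊆ A.charpoly.roots.toFinset := by
    intro z hz
    exact hsub (by simpa using hz)
  calc hfin.toFinset.card ≤ A.charpoly.roots.toFinset.card := Finset.card_le_card h1
    _ ≤ Multiset.card A.charpoly.roots := Multiset.toFinset_card_le _
    _ ≤ A.charpoly.natDegree := Polynomial.card_roots' _
    _ = n := by rw [Matrix.charpoly_natDegree_eq_dim, Fintype.card_fin]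

theorem result :
    (∀ n : ℕ, 1 ≤ n → w n ≤ ENNReal.ofReal (14 + 4 * (n - 1 : ℝ) * (2 * Real.sqrt n + 1))) ∧
    ∃ C : ℝ, 0 < C ∧ ∀ n : ℕ, w n ≤ ENNReal.ofReal (C * n) := by
  constructor
  · intro n hn
    unfold w
    refine iSup_le fun A => iSup_le fun B => iSup_le fun hA => iSup_le fun hB => iSup_le fun hE => ?_
    apply L_le
    obtain ⟨hfA, hcA⟩ := spec_fin A
    obtain ⟨hfB, hcB⟩ := spec_fin B
    exact joined_explicit hA hB hfA hfB (by rw [norm_sub_rev]; exact hE.le) hcA hcB hn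
  · obtain ⟨k, hk⟩ := exists_kern
    have hM : 0 ≤ MM k := by
      unfold MM
      have h1 : 0 ≤ ∫ s, |s| * ‖k s‖ := MeasureTheory.integral_nonneg (fun s => by positivity)
      have h0 : 0 ≤ ∫ s, ‖k s‖ := MeasureTheory.integral_nonneg (fun s => norm_nonneg _)
      positivity
    refine ⟨14 + 2 * ((4 * MM k + 1) + 2), by positivity, ?_⟩
    intro n
    unfold w
    refine iSup_le fun A => iSup_le fun B => iSup_le fun hA => iSup_le fun hB => iSup_le fun hE => ?_
    rcases Nat.eq_zero_or_pos n with h0 | hn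
    · subst h0
      exfalso
      have : A - B = 0 := Subsingleton.elim _ _
      rw [this, norm_zero] at hE
      exact zero_ne_one hE
    · obtain ⟨hfA, hcA⟩ := spec_fin A
      obtain ⟨hfB, hcB⟩ := spec_fin B
      refine (L_le (joined_linear hk hA hB hfA hfB (by rw [norm_sub_rev]; exact hE.le) hcA hn)).trans ?_
      apply ENNReal.ofReal_le_ofReal
      have hn' : (1:ℝ) ≤ n := by exact_mod_cast hn
      nlinarith

end Pool.Agent.Results.MP_6f0508_an.UpperBound
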